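import Pool.Agent.Helper28.TH.StV

/-!
Project TH, low levels, module LDen: bounded denominators (after the module LDen of project LV by helper62).
-/

set_option autoImplicit false

namespace Pool.Agent.Helper7.THV

open Pool.Agent.Helper28.TH Pool.Agent.Helper28.WK Pool.Agent.Helper28.LV Pool.Agent.Helper93.TLH
open Pool.Agent.Helper14.CV

private def Zs : AddSubgroup ℚ := (Int.castAddHom ℚ).range

private lemma mem_Zs {x : ℚ} : x ∈ Zs ↔ ∃ z : ℤ, (z : ℚ) = x := AddMonoidHom.mem_range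

private lemma Zs_mul {x : ℚ} (hx : x ∈ Zs) (c : ℤ) : (c : ℚ) * x ∈ Zs := by
  obtain ⟨z, rfl⟩ := mem_Zs.1 hx
  exact mem_Zs.2 ⟨c * z, by push_cast; ring⟩

private lemma Zs_dvd {x : ℚ} {m n : ℤ} (h : m ∣ n) (hx : (m : ℚ) * x ∈ Zs) :
    (n : ℚ) * x ∈ Zs := by
  obtain ⟨k, rfl⟩ := h
  have := Zs_mul hx k
  have e : (((m * k : ℤ)) : ℚ) * x = (k : ℚ) * ((m : ℚ) * x) := by push_cast; ring
  rw [e]
  exact this

private lemma ne_zero_left {a b c d : ℤ} (h : a * d - b * c = 1) : a ≠ 0 ∨ c ≠ 0 := by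
  by_contra hcon
  push Not at hcon
  rw [hcon.1, hcon.2] at h
  simp at h

private lemma ne_zero_right {a b c d : ℤ} (h : a * d - b * c = 1) : b ≠ 0 ∨ d ≠ 0 := by
  by_contra hcon
  push Not at hcon
  rw [hcon.1, hcon.2] at h
  simp at h

/-- the values at a matrix are integral combinations of the values at a congruent matrix -/
private lemma diff_comb (p a n : ℕ) (Φ : ℤ → ℤ → ℕ → ℚ) (hΦ : WSNH p a n Φ)
    {α β γ δ α' β' γ' δ' : ℤ} (h : α * δ - β * γ = 1) (h' : α' * δ' - β' * γ' = 1)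
    (e3 : 2 * (p : ℤ) ^ n ∣ γ - γ') (e4 : 2 * (p : ℤ) ^ n ∣ δ - δ') (i : ℕ)
    (hi : i ≤ 2 * a) :
    ∃ c : ℕ → ℤ, Φ α γ i - Φ β δ i =
      ∑ s ∈ Finset.range (2 * a + 1), (c s : ℚ) * (Φ α' γ' s - Φ β' δ' s) := by
  set k1 := α * δ' - β * γ' with hk1
  set k2 := β * α' - α * β' with hk2
  set k3 := γ * δ' - δ * γ' with hk3
  set k4 := δ * α' - γ * β' with hk4
  have hdet : k1 * k4 - k2 * k3 = 1 := by
    have : k1 * k4 - k2 * k3 = (α * δ - β * γ) * (α' * δ' - β' * γ') := by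
      rw [hk1, hk2, hk3, hk4]; ring
    rw [this, h, h', one_mul]
  have hq3 : 2 * (p : ℤ) ^ n ∣ k3 := by
    have : k3 = (γ - γ') * δ' - (δ - δ') * γ' := by rw [hk3]; ring
    rw [this]
    exact dvd_sub (e3.mul_right _) (e4.mul_right _)
  set P : Polynomial ℤ := (Polynomial.C k1 * Polynomial.X + Polynomial.C k2) ^ i *
    (Polynomial.C k3 * Polynomial.X + Polynomial.C k4) ^ (2 * a - i) with hP
  have hE := hΦ.eqv k1 k2 k3 k4 hdet ((Dvd.intro _ rfl).trans hq3)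
    ((Dvd.intro_left _ rfl).trans hq3) i hi
  rw [← hP] at hE
  have hdeg : P.natDegree < 2 * a + 1 := by
    have h1 : P.natDegree ≤ i * 1 + (2 * a - i) * 1 := by
      refine Polynomial.natDegree_mul_le.trans (Nat.add_le_add ?_ ?_)
      · exact Polynomial.natDegree_pow_le.trans
          (Nat.mul_le_mul_left _ Polynomial.natDegree_linear_le)
      · exact Polynomial.natDegree_pow_le.trans
          (Nat.mul_le_mul_left _ Polynomial.natDegree_linear_le)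
    omega
  rw [pr_eq_sum Φ P (2 * a + 1) hdeg] at hE
  have hd := hE.diff (ne_zero_left h') (ne_zero_right h')
  have c1 : k1 * α' + k2 * γ' = α := by
    have : k1 * α' + k2 * γ' = α * (α' * δ' - β' * γ') := by rw [hk1, hk2]; ring
    rw [this, h', mul_one]
  have c2 : k3 * α' + k4 * γ' = γ := by
    have : k3 * α' + k4 * γ' = γ * (α' * δ' - β' * γ') := by rw [hk3, hk4]; ring
    rw [this, h', mul_one]
  have c3 : k1 * β' + k2 * δ' = β := by
    have : k1 * β' + k2 * δ' = β * (α' * δ' - β' * γ') := by rw [hk1, hk2]; ring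
    rw [this, h', mul_one]
  have c4 : k3 * β' + k4 * δ' = δ := by
    have : k3 * β' + k4 * δ' = δ * (α' * δ' - β' * γ') := by rw [hk3, hk4]; ring
    rw [this, h', mul_one]
  refine ⟨fun s => P.coeff s, ?_⟩
  have hl : act k1 k2 k3 k4 (cp Φ i) α' γ' - act k1 k2 k3 k4 (cp Φ i) β' δ' =
      Φ α γ i - Φ β δ i := by
    simp only [act, cp, c1, c2, c3, c4]
  rw [← hl, hd]
  simp only [Finset.sum_apply, Pi.smul_apply, cp]
  simp only [zsmul_eq_mul]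
  rw [← Finset.sum_sub_distrib]
  exact Finset.sum_congr rfl fun s _ => by ring

private lemma exists_den (p a n : ℕ) (hp : p.Prime) (Φ : ℤ → ℤ → ℕ → ℚ) (hΦ : WSNH p a n Φ) :
    ∃ N : ℤ, N ≠ 0 ∧ ∀ α β γ δ : ℤ, α * δ - β * γ = 1 → ∀ i : ℕ, i ≤ 2 * a →
      (N : ℚ) * (Φ α γ i - Φ β δ i) ∈ Zs := by
  set q : ℕ := 2 * p ^ n with hq
  have : NeZero q := ⟨mul_ne_zero two_ne_zero (pow_ne_zero _ hp.ne_zero)⟩
  have hdv : ∀ x y : ℤ, (x : ZMod q) = (y : ZMod q) → 2 * (p : ℤ) ^ n ∣ x - y := by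
    intro x y hxy
    have h1 : ((x - y : ℤ) : ZMod q) = 0 := by
      rw [Int.cast_sub, hxy, sub_self]
    have h2 := (ZMod.intCast_zmod_eq_zero_iff_dvd (x - y) q).1 h1
    rw [hq] at h2
    exact_mod_cast h2
  have step : ∀ c : ZMod q × ZMod q × ZMod q × ZMod q, ∃ N : ℤ, N ≠ 0 ∧
      ∀ α β γ δ : ℤ, α * δ - β * γ = 1 →
        ((α : ZMod q), (β : ZMod q), (γ : ZMod q), (δ : ZMod q)) = c →
        ∀ i : ℕ, i ≤ 2 * a → (N : ℚ) * (Φ α γ i - Φ β δ i) ∈ Zs := by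
    intro c
    by_cases hc : ∃ α' β' γ' δ' : ℤ, α' * δ' - β' * γ' = 1 ∧
        ((α' : ZMod q), (β' : ZMod q), (γ' : ZMod q), (δ' : ZMod q)) = c
    · obtain ⟨α', β', γ', δ', hd', rfl⟩ := hc
      refine ⟨∏ s ∈ Finset.range (2 * a + 1), ((Φ α' γ' s - Φ β' δ' s).den : ℤ), ?_, ?_⟩
      · rw [Finset.prod_ne_zero_iff]
        intro s _
        exact_mod_cast (Φ α' γ' s - Φ β' δ' s).den_ne_zero
      · intro α β γ δ hd hcl i hi
        rw [Prod.mk.injEq, Prod.mk.injEq, Prod.mk.injEq] at hcl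
        obtain ⟨-, -, x3, x4⟩ := hcl
        obtain ⟨c, hc⟩ := diff_comb p a n Φ hΦ hd hd' (hdv _ _ x3) (hdv _ _ x4) i hi
        rw [hc, Finset.mul_sum]
        refine Zs.sum_mem fun s hs => ?_
        have h1 : (((∏ s ∈ Finset.range (2 * a + 1), ((Φ α' γ' s - Φ β' δ' s).den : ℤ)) : ℤ) : ℚ) *
            (Φ α' γ' s - Φ β' δ' s) ∈ Zs := by
          refine Zs_dvd (Finset.dvd_prod_of_mem _ hs) ?_
          refine mem_Zs.2 ⟨(Φ α' γ' s - Φ β' δ' s).num, ?_⟩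
          rw [Int.cast_natCast, mul_comm]
          exact (Rat.mul_den_eq_num _).symm
        have h2 := Zs_mul h1 (c s)
        have e : (((∏ s ∈ Finset.range (2 * a + 1), ((Φ α' γ' s - Φ β' δ' s).den : ℤ)) : ℤ) : ℚ) *
            ((c s : ℚ) * (Φ α' γ' s - Φ β' δ' s)) = (c s : ℚ) *
            ((((∏ s ∈ Finset.range (2 * a + 1), ((Φ α' γ' s - Φ β' δ' s).den : ℤ)) : ℤ) : ℚ) *
            (Φ α' γ' s - Φ β' δ' s)) := by ring
        rw [e]
        exact h2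
    · exact ⟨1, one_ne_zero, fun α β γ δ hd hcl => absurd ⟨α, β, γ, δ, hd, hcl⟩ hc⟩
  choose N hN0 hN using step
  refine ⟨∏ c, N c, Finset.prod_ne_zero_iff.2 fun c _ => hN0 c, ?_⟩
  intro α β γ δ hd i hi
  exact Zs_dvd (Finset.dvd_prod_of_mem _ (Finset.mem_univ _)) (hN _ α β γ δ hd rfl i hi)

theorem hLDen : ZLDen := by
  intro hFar hMap p a n Φ hp hΦ
  obtain ⟨N, hN0, hN⟩ := exists_den p a n hp Φ hΦ
  -- integrality of the differences
  have hint : ∀ i : ℕ, i ≤ 2 * a → ∀ x y : ℤ, (x ≠ 0 ∨ y ≠ 0) →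
      (N : ℚ) * Φ x y i - (N : ℚ) * Φ 1 0 i ∈ Zs := by
    intro i hi
    have hom := hΦ.hom i hi
    have h1 : EqC (fun x y : ℤ => (QuotientAddGroup.mk ((N : ℚ) * Φ x y i) : ℚ ⧸ Zs)) 0 := by
      refine hFar (ℚ ⧸ Zs) inferInstance _ ?_ ?_
      · intro k x y hk hxy
        have := hom k x y hk hxy
        simp only [cp] at this
        simp only [this]
      · intro a' b' c' d' hd
        show (QuotientAddGroup.mk ((N : ℚ) * Φ a' c' i) : ℚ ⧸ Zs) =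
          QuotientAddGroup.mk ((N : ℚ) * Φ b' d' i)
        rw [eq_comm, QuotientAddGroup.eq]
        have := hN a' b' c' d' hd i hi
        rw [mul_sub] at this
        rwa [neg_add_eq_sub]
    intro x y hxy
    have h2 := h1.diff hxy (Or.inl one_ne_zero : (1 : ℤ) ≠ 0 ∨ (0 : ℤ) ≠ 0)
    simp only [Pi.zero_apply, sub_self] at h2
    rw [sub_eq_zero, eq_comm, QuotientAddGroup.eq, neg_add_eq_sub] at h2
    exact h2
  let Ψ : ℤ → ℤ → ℕ → ℤ := fun x y i => ⌊(N : ℚ) * Φ x y i - (N : ℚ) * Φ 1 0 i⌋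
  have hΨ : ∀ i : ℕ, i ≤ 2 * a → ∀ x y : ℤ, (x ≠ 0 ∨ y ≠ 0) →
      ((Ψ x y i : ℤ) : ℚ) = (N : ℚ) * Φ x y i - (N : ℚ) * Φ 1 0 i := by
    intro i hi x y hxy
    obtain ⟨z, hz⟩ := mem_Zs.1 (hint i hi x y hxy)
    show ((⌊(N : ℚ) * Φ x y i - (N : ℚ) * Φ 1 0 i⌋ : ℤ) : ℚ) = _
    rw [← hz, Int.floor_intCast]
  have hEq : ∀ i : ℕ, i ≤ 2 * a →
      EqC (fun x y => ((Ψ x y i : ℤ) : ℚ)) (fun x y => (N : ℚ) * Φ x y i) := by
    intro i hi
    refine ⟨-((N : ℚ) * Φ 1 0 i), fun x y hxy => ?_⟩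
    show ((Ψ x y i : ℤ) : ℚ) = (N : ℚ) * Φ x y i + -((N : ℚ) * Φ 1 0 i)
    rw [hΨ i hi x y hxy, sub_eq_add_neg]
  refine ⟨N, Ψ, hN0, ?_, ?_⟩
  · have hA : WSNH p a n (fun x y i => (N : ℚ) * Φ x y i) :=
      (hMap p a n hp.ne_zero ℚ ℚ inferInstance inferInstance (AddMonoidHom.mulLeft (N : ℚ)) Φ).1 hΦ
    have hC : WSNH p a n (fun x y i => ((Ψ x y i : ℤ) : ℚ)) :=
      (hMap p a n hp.ne_zero ℚ ℚ inferInstance inferInstance (AddMonoidHom.id ℚ)
        (fun x y i => (N : ℚ) * Φ x y i)).2.2 (fun x y i => ((Ψ x y i : ℤ) : ℚ)) hEq hA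
    exact (hMap p a n hp.ne_zero ℤ ℚ inferInstance inferInstance (Int.castAddHom ℚ) Ψ).2.1
      Int.cast_injective hC
  · intro i hi
    have h3 : (N • cp Φ i) = fun x y => (N : ℚ) * Φ x y i := by
      funext x y
      simp only [Pi.smul_apply, cp]
      rw [zsmul_eq_mul]
    rw [h3]
    exact hEq i hi

end Pool.Agent.Helper7.THV
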